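import Pool.Agent.H43.TC.Targets2

/-!
# MP_183c3b_co: module HUL (the convex hull for the cycle)
-/

set_option autoImplicit false

namespace Pool.Agent.H91.TE

open Pool.Agent.H43.TC

/-- the half plane part -/
lemma hul_half (hEXB : T_EXB) (hPWX : T_PWX) (t : ℕ) (x y : ℝ) (ht : 1 ≤ t) (hx0 : 0 ≤ x)
    (hx1 : x ≤ 1) (hy1 : y ≤ 1) (hyx : y ≤ x)
    (h : ∀ m : ℕ, ((pathWalks (m + 1) t : ℝ) - pathWalks m t) -
      ((m : ℝ) * pathWalks (m + 1) t - (m + 1 : ℝ) * pathWalks m t) * (1 - x) ≤ 2 ^ t * y) :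
    (x, y) ∈ convexHull ℝ (cyv t) := by
  obtain ⟨hlen, hex⟩ := hEXB t
  have hcvx : Convex ℝ (convexHull ℝ (cyv t)) := convex_convexHull ℝ _
  have hsub : ∀ p ∈ cyv t, p ∈ convexHull ℝ (cyv t) := fun p hp => subset_convexHull ℝ _ hp
  have h11 : ((1 : ℝ), (1 : ℝ)) ∈ convexHull ℝ (cyv t) := hsub _ (Or.inl rfl)
  have hP : ∀ m : ℕ, 1 ≤ m → m ≤ t →
      ((1 - 1 / m : ℝ), (pathWalks m t / (m * 2 ^ t) : ℝ)) ∈ convexHull ℝ (cyv t) :=
    fun m h1 h2 => hsub _ (Or.inr ⟨m, h1, h2, rfl⟩)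
  -- values of W
  have hW1 : pathWalks 1 t = 0 := by
    rw [hPWX 1 t]
    refine List.sum_eq_zero fun z hz => ?_
    rw [List.mem_map] at hz
    obtain ⟨p, hp, rfl⟩ := hz
    have := (hex p hp).2 ht
    omega
  have hWt : pathWalks (t + 1) t = pathWalks t t + 2 ^ t := by
    rw [hPWX (t + 1) t, hPWX t t]
    have h1 : (ex t).map (fun p => t + 1 - (p.1 + p.2)) =
        (ex t).map (fun p => (t - (p.1 + p.2)) + 1) := by
      refine List.map_congr_left fun p hp => ?_
      have := (hex p hp).1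
      omega
    rw [h1, List.sum_map_add]
    simp [hlen]
  have hWtR : (pathWalks (t + 1) t : ℝ) = pathWalks t t + 2 ^ t := by
    rw [hWt]; push_cast; ring
  have hpow : (0 : ℝ) < 2 ^ t := by positivity
  have h00 : ((0 : ℝ), (0 : ℝ)) ∈ convexHull ℝ (cyv t) := by
    have := hP 1 le_rfl ht
    rw [hW1] at this
    simpa using this
  -- the point on the diagonal
  have hxx : (x, x) ∈ convexHull ℝ (cyv t) := by
    have h3 := hcvx h11 h00 hx0 (by linarith : (0 : ℝ) ≤ 1 - x) (by ring)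
    have : x • ((1 : ℝ), (1 : ℝ)) + (1 - x) • ((0 : ℝ), (0 : ℝ)) = (x, x) := by
      ext <;> simp
    rwa [this] at h3
  -- it suffices to find a point below
  suffices hg : ∃ g : ℝ, g ≤ y ∧ (x, g) ∈ convexHull ℝ (cyv t) by
    obtain ⟨g, hgy, hg⟩ := hg
    rcases eq_or_lt_of_le (hgy.trans hyx) with hgx | hgx
    · have : y = g := le_antisymm (by rw [hgx]; exact hyx) hgy
      rw [this]; exact hg
    · have hd : 0 < x - g := by linarith
      have h3 := hcvx hg hxx (a := (x - y) / (x - g)) (b := (y - g) / (x - g))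
        (div_nonneg (by linarith) hd.le) (div_nonneg (by linarith) hd.le)
        (by field_simp; ring)
      have : ((x - y) / (x - g)) • (x, g) + ((y - g) / (x - g)) • (x, x) = (x, y) := by
        have hne : x - g ≠ 0 := hd.ne'
        ext
        · simp only [Prod.smul_mk, Prod.mk_add_mk, smul_eq_mul]
          field_simp; ring
        · simp only [Prod.smul_mk, Prod.mk_add_mk, smul_eq_mul]
          field_simp; ring
      rwa [this] at h3
  rcases eq_or_lt_of_le hx1 with hx | hx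
  · -- x = 1
    have h4 := h t
    rw [hWtR, hx] at h4
    have h5 : (2 : ℝ) ^ t * 1 ≤ 2 ^ t * y := by
      have : (pathWalks t t : ℝ) + 2 ^ t - pathWalks t t -
        (t * (pathWalks t t + 2 ^ t) - (t + 1) * pathWalks t t) * (1 - 1) = 2 ^ t * 1 := by ring
      rw [this] at h4; exact h4
    have h6 : 1 ≤ y := le_of_mul_le_mul_left h5 hpow
    exact ⟨1, h6, by rw [hx]; exact h11⟩
  · set u : ℝ := 1 - x with hu
    have hu0 : 0 < u := by rw [hu]; linarith
    have hu1 : u ≤ 1 := by rw [hu]; linarith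
    have hxu : x = 1 - u := by rw [hu]; ring
    obtain ⟨m, hm1, hmt, hmu, hmm⟩ : ∃ m : ℕ, 1 ≤ m ∧ m ≤ t ∧ (m : ℝ) * u ≤ 1 ∧
        (m = t ∨ (m + 1 ≤ t ∧ 1 ≤ ((m : ℝ) + 1) * u)) := by
      have hf1 : 1 ≤ ⌊1 / u⌋₊ := by
        rw [Nat.one_le_floor_iff, le_div_iff₀ hu0, one_mul]; exact hu1
      have hf2 : (⌊1 / u⌋₊ : ℝ) * u ≤ 1 := by
        have := Nat.floor_le (a := 1 / u) (by positivity)
        calc (⌊1 / u⌋₊ : ℝ) * u ≤ 1 / u * u := mul_le_mul_of_nonneg_right this hu0.le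
          _ = 1 := by field_simp
      have hf3 : 1 ≤ ((⌊1 / u⌋₊ : ℝ) + 1) * u := by
        have := (Nat.lt_floor_add_one (1 / u)).le
        calc (1 : ℝ) = 1 / u * u := by field_simp
          _ ≤ _ := mul_le_mul_of_nonneg_right this hu0.le
      by_cases hc : ⌊1 / u⌋₊ < t
      · exact ⟨⌊1 / u⌋₊, hf1, hc.le, hf2, Or.inr ⟨hc, hf3⟩⟩
      · push Not at hc
        refine ⟨t, ht, le_rfl, ?_, Or.inl rfl⟩
        refine le_trans (mul_le_mul_of_nonneg_right ?_ hu0.le) hf2
        exact_mod_cast hc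
    have hmR : (1 : ℝ) ≤ m := by exact_mod_cast hm1
    have hm0 : (m : ℝ) ≠ 0 := by linarith
    refine ⟨(((pathWalks (m + 1) t : ℝ) - pathWalks m t) -
      ((m : ℝ) * pathWalks (m + 1) t - (m + 1 : ℝ) * pathWalks m t) * u) / 2 ^ t, ?_, ?_⟩
    · rw [div_le_iff₀ hpow]
      have := h m
      linarith
    · rcases hmm with rfl | ⟨hmt', hmu'⟩
      · -- last piece
        have h3 := hcvx (hP m hm1 le_rfl) h11 (a := m * u) (b := 1 - m * u)
          (by positivity) (by linarith) (by ring)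
        rw [hWtR]
        have : ((m : ℝ) * u) • ((1 - 1 / m : ℝ), (pathWalks m m / (m * 2 ^ m) : ℝ)) +
            (1 - m * u) • ((1 : ℝ), (1 : ℝ)) =
            (x, ((pathWalks m m + 2 ^ m : ℝ) - pathWalks m m -
              ((m : ℝ) * (pathWalks m m + 2 ^ m) - (m + 1 : ℝ) * pathWalks m m) * u) / 2 ^ m) := by
          rw [hxu]
          ext
          · simp only [Prod.smul_mk, Prod.mk_add_mk, smul_eq_mul]
            field_simp; ring
          · simp only [Prod.smul_mk, Prod.mk_add_mk, smul_eq_mul]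
            field_simp; ring
        rwa [this] at h3
      · have hl0 : (0 : ℝ) ≤ m * ((m + 1) * u - 1) := mul_nonneg (by linarith) (by linarith)
        have hl1 : (0 : ℝ) ≤ 1 - m * ((m + 1) * u - 1) := by
          have : (m : ℝ) * ((m + 1) * u - 1) = (m + 1) * (m * u) - m := by ring
          rw [this]
          have h7 : ((m : ℝ) + 1) * (m * u) ≤ (m + 1) * 1 :=
            mul_le_mul_of_nonneg_left hmu (by linarith)
          linarith
        have h3 := hcvx (hP m hm1 hmt) (hP (m + 1) (by omega) hmt') hl0 hl1 (by ring)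
        have hm10 : (m : ℝ) + 1 ≠ 0 := by linarith
        have : ((m : ℝ) * ((m + 1) * u - 1)) •
            ((1 - 1 / m : ℝ), (pathWalks m t / (m * 2 ^ t) : ℝ)) +
            (1 - (m : ℝ) * ((m + 1) * u - 1)) •
            ((1 - 1 / (m + 1 : ℕ) : ℝ), (pathWalks (m + 1) t / ((m + 1 : ℕ) * 2 ^ t) : ℝ)) =
            (x, (((pathWalks (m + 1) t : ℝ) - pathWalks m t) -
              ((m : ℝ) * pathWalks (m + 1) t - (m + 1 : ℝ) * pathWalks m t) * u) / 2 ^ t) := by
          rw [hxu]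
          push_cast
          ext
          · simp only [Prod.smul_mk, Prod.mk_add_mk, smul_eq_mul]
            field_simp; ring
          · simp only [Prod.smul_mk, Prod.mk_add_mk, smul_eq_mul]
            field_simp; ring
        rwa [this] at h3

theorem hul (hEXB : T_EXB) (hPWX : T_PWX) : T_HUL := by
  intro t x y ht hx0 hx1 hy0 hy1 h1 h2
  rcases le_total y x with hyx | hxy
  · exact convexHull_mono Set.subset_union_left
      (hul_half hEXB hPWX t x y ht hx0 hx1 hy1 hyx h1)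
  · have h3 := hul_half hEXB hPWX t y x ht hy0 hy1 hx1 hxy h2
    have h4 : (x, y) ∈ (LinearEquiv.prodComm ℝ ℝ ℝ).toLinearMap '' (convexHull ℝ (cyv t)) :=
      ⟨(y, x), h3, rfl⟩
    rw [LinearMap.image_convexHull] at h4
    refine convexHull_mono (Set.Subset.trans ?_ Set.subset_union_right) h4
    rintro _ ⟨p, hp, rfl⟩
    exact ⟨p, hp, rfl⟩

end Pool.Agent.H91.TE
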