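import Pool.Agent.H43.TC.Targets2
import Pool.Agent.H43.TC.FIN

/-!
# MP_183c3b_co: module ATT (attained points)
-/

set_option autoImplicit false

namespace Pool.Agent.H91.TE

open Pool.Agent.H43.TC

/-- the homomorphism with coefficients `a`, on integer vectors -/
def lz {k N : ℕ} (a : Fin k → ZMod N) (z : Fin k → ℤ) : ZMod N := ∑ i, a i * (z i : ZMod N)

lemma lz_add {k N : ℕ} (a : Fin k → ZMod N) (z w : Fin k → ℤ) :
    lz a (z + w) = lz a z + lz a w := by
  unfold lz
  rw [← Finset.sum_add_distrib]
  refine Finset.sum_congr rfl fun i _ => ?_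
  simp [mul_add]

lemma lz_sub {k N : ℕ} (a : Fin k → ZMod N) (z w : Fin k → ℤ) :
    lz a (z - w) = lz a z - lz a w := by
  unfold lz
  rw [← Finset.sum_sub_distrib]
  refine Finset.sum_congr rfl fun i _ => ?_
  simp [mul_sub]

lemma lz_un {k N : ℕ} (a : Fin k → ZMod N) (i : Fin k) : lz a (un i) = a i := by
  unfold lz un
  rw [Finset.sum_eq_single i]
  · simp
  · intro j _ hj
    simp [Pi.single_eq_of_ne hj]
  · intro h; exact absurd (Finset.mem_univ i) h

lemma lz_zero {k N : ℕ} (a : Fin k → ZMod N) : lz a 0 = 0 := by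
  unfold lz; simp

lemma nrm_un {k : ℕ} (i : Fin k) : nrm (un i) = 1 := by
  unfold nrm un
  rw [Finset.sum_eq_single i]
  · simp
  · intro j _ hj
    simp [Pi.single_eq_of_ne hj]
  · intro h; exact absurd (Finset.mem_univ i) h

lemma nrm_add_le {k : ℕ} (z w : Fin k → ℤ) : nrm (z + w) ≤ nrm z + nrm w := by
  unfold nrm
  rw [← Finset.sum_add_distrib]
  exact Finset.sum_le_sum fun i _ => abs_add_le _ _

lemma nrm_neg {k : ℕ} (z : Fin k → ℤ) : nrm (-z) = nrm z := by
  unfold nrm; simp

lemma nrm_sub_le {k : ℕ} (z w : Fin k → ℤ) : nrm (z - w) ≤ nrm z + nrm w := by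
  rw [sub_eq_add_neg]
  have := nrm_add_le z (-w)
  rwa [nrm_neg] at this

lemma walks_lz {k t N : ℕ} (a : Fin k → ZMod N)
    (ha : ∀ z : Fin k → ℤ, z ≠ 0 → nrm z ≤ t → lz a z ≠ 0) :
    ∀ (j : ℕ) (v : Fin k → ℤ), nrm v + j ≤ t →
      walks a (fun u => decide (u = 0)) false j (lz a v) = walks un (off k) true j v := by
  intro j
  induction j with
  | zero =>
    intro v hv
    have hc : (decide (lz a v = 0) = false) ↔ (off k v = true) := by
      unfold off
      simp only [decide_eq_false_iff_not, decide_eq_true_eq]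
      constructor
      · intro h h0
        exact h (by rw [h0, lz_zero])
      · intro h
        exact ha v h (by simpa using hv)
    unfold walks
    by_cases h : off k v = true
    · rw [if_pos h, if_pos (hc.2 h)]
    · rw [if_neg h, if_neg (fun h' => h (hc.1 h'))]
  | succ j ih =>
    intro v hv
    have hc : (decide (lz a v = 0) = false) ↔ (off k v = true) := by
      unfold off
      simp only [decide_eq_false_iff_not, decide_eq_true_eq]
      constructor
      · intro h h0
        exact h (by rw [h0, lz_zero])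
      · intro h
        refine ha v h ?_
        push_cast at hv
        have : (0 : ℤ) ≤ j := Int.natCast_nonneg j
        linarith
    have hs : ∀ i : Fin k, walks a (fun u => decide (u = 0)) false j (lz a v + a i) +
        walks a (fun u => decide (u = 0)) false j (lz a v - a i) =
        walks un (off k) true j (v + un i) + walks un (off k) true j (v - un i) := by
      intro i
      have h1 : lz a v + a i = lz a (v + un i) := by rw [lz_add, lz_un]
      have h2 : lz a v - a i = lz a (v - un i) := by rw [lz_sub, lz_un]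
      rw [h1, h2, ih, ih]
      · have := nrm_sub_le v (un i)
        rw [nrm_un] at this
        push_cast at hv; linarith
      · have := nrm_add_le v (un i)
        rw [nrm_un] at this
        push_cast at hv; linarith
    show (if decide (lz a v = 0) = false then _ else 0) = (if off k v = true then _ else 0)
    by_cases h : off k v = true
    · rw [if_pos h, if_pos (hc.2 h)]
      exact Finset.sum_congr rfl fun i _ => hs i
    · rw [if_neg h, if_neg (fun h' => h (hc.1 h'))]

theorem att (hIDN : T_IDN) : T_ATT := by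
  intro k t N _ a hk ht hN hs ha
  have ha' : ∀ z : Fin k → ℤ, z ≠ 0 → nrm z ≤ t → lz a z ≠ 0 := ha
  have hai : ∀ i, a i ≠ 0 := by
    intro i
    have h1 := ha' (un i) ?_ ?_
    · rwa [lz_un] at h1
    · intro h
      have := congrFun h i
      simp [un] at this
    · rw [nrm_un]; exact_mod_cast ht
  set f : ZMod N → Bool := fun u => decide (u = 0) with hf
  have hWR : ∑ u, walks a f true t u = 0 := by
    refine Finset.sum_eq_zero fun u _ => ?_
    obtain ⟨s, rfl⟩ : ∃ s, t = s + 1 := ⟨t - 1, by omega⟩
    have hz : ∀ (j : ℕ) (v : ZMod N), v ≠ 0 → walks a f true j v = 0 := by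
      intro j v hv
      have : ¬ (f v = true) := by simp [hf, hv]
      cases j with
      | zero => show (if f v = true then 1 else 0) = 0; rw [if_neg this]
      | succ j => show (if f v = true then _ else 0) = 0; rw [if_neg this]
    by_cases hu : u = 0
    · subst hu
      show (if f 0 = true then ∑ i : Fin k, (walks a f true s (0 + a i) +
        walks a f true s (0 - a i)) else 0) = 0
      rw [Finset.sum_eq_zero, ite_self]
      intro i _
      rw [hz s _ (by simpa using hai i), hz s _ (by simpa using hai i), add_zero]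
    · exact hz _ u hu
  have hcard : (Finset.univ.filter (fun u : ZMod N => f u = true)).card = 1 := by
    have : (Finset.univ.filter (fun u : ZMod N => f u = true)) = {0} := by
      ext u; simp [hf]
    rw [this, Finset.card_singleton]
  have hcard' : (Finset.univ.filter (fun u : ZMod N => f u = false)).card = N - 1 := by
    have h1 : (Finset.univ.filter (fun u : ZMod N => f u = false)) = Finset.univ.erase 0 := by
      ext u; simp [hf]
    rw [h1, Finset.card_erase_of_mem (Finset.mem_univ _), Finset.card_univ, ZMod.card]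
  have hmem := lin' k N t ⟨0, hk⟩ a hs f 1 0 (∑ u, walks a f false t u) hcard (by omega)
    (by omega) hWR rfl
  have hnxt : ∀ j, j < t → ∑ x, (if f x = true then nxt a f j x else 0) = avoid k (j + 1) := by
    intro j hj
    rw [Finset.sum_eq_single (0 : ZMod N)]
    · rw [if_pos (by simp [hf])]
      unfold nxt
      show _ = ∑ i : Fin k, (walks un (off k) true j (un i) + walks un (off k) true j (-un i))
      refine Finset.sum_congr rfl fun i _ => ?_
      have h1 : (0 : ZMod N) + a i = lz a (un i) := by rw [lz_un, zero_add]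
      have h2 : (0 : ZMod N) - a i = lz a (-un i) := by
        have := lz_sub a 0 (un i)
        rw [lz_zero, lz_un, zero_sub] at this
        rw [zero_sub, this]; simp
      rw [h1, h2, hf, walks_lz a ha', walks_lz a ha']
      · rw [nrm_neg, nrm_un]; push_cast; omega
      · rw [nrm_un]; push_cast; omega
    · intro u _ hu
      rw [if_neg (by simp [hf, hu])]
    · intro h; exact absurd (Finset.mem_univ _) h
  have hid := hIDN (ZMod N) k a f t
  rw [hcard'] at hid
  have hsum : ∑ j ∈ Finset.range t, (2 * k) ^ (t - 1 - j) *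
      ∑ x, (if f x = true then nxt a f j x else 0) =
      ∑ j ∈ Finset.range t, (2 * k) ^ (t - 1 - j) * avoid k (j + 1) :=
    Finset.sum_congr rfl fun j hj => by rw [hnxt j (Finset.mem_range.1 hj)]
  rw [hsum] at hid
  have hid' : ((∑ u, walks a f false t u : ℕ) : ℝ) +
      ∑ j ∈ Finset.range t, (2 * k : ℝ) ^ (t - 1 - j) * (avoid k (j + 1) : ℝ) =
      (2 * k : ℝ) ^ t * ((N : ℝ) - 1) := by
    have h := congrArg (fun n : ℕ => (n : ℝ)) hid
    simp only [Nat.cast_add, Nat.cast_mul, Nat.cast_pow, Nat.cast_sum, Nat.cast_ofNat] at h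
    rw [Nat.cast_sub (by omega), Nat.cast_one] at h
    push_cast
    exact h
  have h2k : (0 : ℝ) < 2 * k := by
    have : (0 : ℝ) < k := by exact_mod_cast hk
    linarith
  have hpow : (0 : ℝ) < (2 * k : ℝ) ^ t := pow_pos h2k t
  have hrng : rng k t = 1 + ∑ j ∈ Finset.range t, (avoid k (j + 1) : ℝ) / (2 * k : ℝ) ^ (j + 1) := by
    unfold rng
    rw [Finset.sum_range_succ']
    have : avoid k 0 = 1 := rfl
    rw [this]; simp [add_comm]
  have hWB : ((∑ u, walks a f false t u : ℕ) : ℝ) / (2 * k : ℝ) ^ t = N - rng k t := by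
    rw [hrng, div_eq_iff hpow.ne']
    have h3 : (∑ j ∈ Finset.range t, (avoid k (j + 1) : ℝ) / (2 * k : ℝ) ^ (j + 1)) *
        (2 * k : ℝ) ^ t =
        ∑ j ∈ Finset.range t, (2 * k : ℝ) ^ (t - 1 - j) * (avoid k (j + 1) : ℝ) := by
      rw [Finset.sum_mul]
      refine Finset.sum_congr rfl fun j hj => ?_
      have hj' := Finset.mem_range.1 hj
      have h4 : (2 * k : ℝ) ^ t = (2 * k : ℝ) ^ (t - 1 - j) * (2 * k : ℝ) ^ (j + 1) := by
        rw [← pow_add]; congr 1; omega
      rw [h4]
      field_simp
    have h5 : ((N : ℝ) - (1 + ∑ j ∈ Finset.range t, (avoid k (j + 1) : ℝ) /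
        (2 * k : ℝ) ^ (j + 1))) * (2 * k : ℝ) ^ t = (2 * k : ℝ) ^ t * ((N : ℝ) - 1) -
        (∑ j ∈ Finset.range t, (avoid k (j + 1) : ℝ) / (2 * k : ℝ) ^ (j + 1)) *
        (2 * k : ℝ) ^ t := by ring
    rw [h5, h3]
    linarith
  rw [hWB] at hmem
  have hN1 : (N : ℝ) - 1 ≠ 0 := by
    have : (2 : ℝ) ≤ N := by exact_mod_cast hN
    intro h; linarith
  have e1 : (((0 : ℕ) : ℝ) / (2 * k : ℝ) ^ t + N - 2 * ((1 : ℕ) : ℝ)) / (N - ((1 : ℕ) : ℝ)) =
      1 - 1 / (N - 1) := by
    push_cast
    field_simp
    ring
  have e2 : (N - rng k t : ℝ) / (N - ((1 : ℕ) : ℝ)) = (N - rng k t) / (N - 1) := by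
    push_cast; ring
  rw [e1, e2] at hmem
  exact hmem

end Pool.Agent.H91.TE
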